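import Pool.Agent.W788.NW.Stm

/-!
# Project NW: dependence sets and right multiplications
-/

set_option autoImplicit false

namespace Pool.Agent.W366.NW.Dr

open Finset Pool.Agent.W788.NV Pool.Agent.W788.NW

section
variable {V : Type} [Fintype V] [DecidableEq V] {q : ℕ}

theorem mem_dep {Φ : Mp V q} {v w : V} :
    w ∈ dep Φ v ↔ ∃ x a, Φ (Function.update x v a) w ≠ Φ x w := by
  unfold dep
  simp

theorem not_dep {Φ : Mp V q} {v w : V} (h : w ∉ dep Φ v) (x : V → Fin q) (a : Fin q) :
    Φ (Function.update x v a) w = Φ x w := by
  by_contra hcon
  exact h (mem_dep.2 ⟨x, a, hcon⟩)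

theorem dep_empty {Φ : Mp V q} {v : V} (h : ∀ x a, Φ (Function.update x v a) = Φ x) :
    dep Φ v = ∅ := by
  rw [Finset.eq_empty_iff_forall_notMem]
  intro w hw
  obtain ⟨x, a, hne⟩ := mem_dep.1 hw
  rw [h] at hne
  exact hne rfl

theorem empty_dep {Φ : Mp V q} {v : V} (h : dep Φ v = ∅) (x : V → Fin q) (a : Fin q) :
    Φ (Function.update x v a) = Φ x := by
  funext w
  refine not_dep ?_ x a
  rw [h]
  exact Finset.notMem_empty w

/-- composition with a map which commutes with the updates at `y` -/
theorem dep_comp (Ψ : Mp V q) (f : Mp V q) (y : V)
    (h : ∀ x d, f (Function.update x y d) = Function.update (f x) y d) :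
    dep (fun x => Ψ (f x)) y ⊆ dep Ψ y := by
  intro j hj
  obtain ⟨x, d, hne⟩ := mem_dep.1 hj
  rw [h] at hne
  exact mem_dep.2 ⟨f x, d, hne⟩

/-- composition with a map which does not read `y` -/
theorem dep_comp0 (Ψ : Mp V q) (f : Mp V q) (y : V)
    (h : ∀ x d, f (Function.update x y d) = f x) : dep (fun x => Ψ (f x)) y = ∅ :=
  dep_empty fun x d => by rw [h]

theorem part2 (Ψ : Mp V q) (v : V) (c : Fin q) :
    dep (fun x => Ψ (Function.update x v c)) v = ∅ ∧
      ∀ y, dep (fun x => Ψ (Function.update x v c)) y ⊆ dep Ψ y := by
  have h1 : dep (fun x => Ψ (Function.update x v c)) v = ∅ :=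
    dep_comp0 Ψ (fun x => Function.update x v c) v fun x d => by
      show Function.update (Function.update x v d) v c = Function.update x v c
      rw [Function.update_idem]
  refine ⟨h1, fun y => ?_⟩
  by_cases hy : y = v
  · subst hy
    rw [h1]
    exact Finset.empty_subset _
  · exact dep_comp Ψ (fun x => Function.update x v c) y fun x d => Function.update_comm hy d c x

theorem part5 (Ψ : Mp V q) (v : V) (a : Fin q) (e : (V × Fin q) ⊕ (V × V)) (h : dep Ψ v = ∅)
    (he : site e ≠ v) : dep (fun x => Ψ (actv v a e x)) v = ∅ := by
  have h1 : dep (fun x => Ψ (actv v a e x)) v ⊆ dep Ψ v := by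
    refine dep_comp Ψ (actv v a e) v fun x d => ?_
    cases e with
    | inl p =>
      change p.1 ≠ v at he
      show Function.update (Function.update x v d) p.1 p.2 =
        Function.update (Function.update x p.1 p.2) v d
      exact Function.update_comm (Ne.symm he) d p.2 x
    | inr p =>
      change p.1 ≠ v at he
      show Function.update (Function.update x v d) p.1
          (if p.2 = v then a else (Function.update x v d) p.2) =
        Function.update (Function.update x p.1 (if p.2 = v then a else x p.2)) v d
      have e1 : (if p.2 = v then a else (Function.update x v d) p.2) =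
          (if p.2 = v then a else x p.2) := by
        split_ifs with hp
        · rfl
        · exact Function.update_of_ne hp d x
      rw [e1]
      exact Function.update_comm (Ne.symm he) d _ x
  rw [h] at h1
  exact Finset.subset_empty.1 h1

end

theorem dr_ : S_DR := by
  intro V _ _ q Ψ v
  refine ⟨fun h x c => empty_dep h x c, fun c => part2 Ψ v c, fun w hw => ?_, fun c y => ?_,
    fun a e h he => part5 Ψ v a e h he⟩
  · have h1 : dep (fun x => Ψ (Function.update x v (x w))) v = ∅ := by
      refine dep_comp0 Ψ (fun x => Function.update x v (x w)) v fun x d => ?_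
      show Function.update (Function.update x v d) v ((Function.update x v d) w) =
        Function.update x v (x w)
      rw [Function.update_of_ne hw, Function.update_idem]
    refine ⟨h1, fun j hj => ?_, fun y hy => ?_⟩
    · obtain ⟨x, d, hne⟩ := mem_dep.1 hj
      rw [Function.update_self] at hne
      rw [Finset.mem_union]
      by_contra hcon
      push Not at hcon
      apply hne
      rw [Function.update_comm hw]
      rw [not_dep hcon.1 (Function.update x v d) d]
      have e2 : Function.update x v d = Function.update (Function.update x v (x w)) v d :=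
        (Function.update_idem _ _ _).symm
      rw [e2, not_dep hcon.2]
    · by_cases hyv : y = v
      · subst hyv
        rw [h1]
        exact Finset.empty_subset _
      · refine dep_comp Ψ (fun x => Function.update x v (x w)) y fun x d => ?_
        show Function.update (Function.update x y d) v ((Function.update x y d) w) =
          Function.update (Function.update x v (x w)) y d
        rw [Function.update_of_ne (Ne.symm hy), Function.update_comm hyv]
  · have h2 : y = v → dep (fun x : V → Fin q => Function.update x v c) y = ∅ := by
      intro h
      subst h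
      refine dep_empty fun x d => ?_
      show Function.update (Function.update x y d) y c = Function.update x y c
      rw [Function.update_idem]
    refine ⟨fun j hj => ?_, h2⟩
    rw [Finset.mem_singleton]
    by_contra hjy
    obtain ⟨x, d, hne⟩ := mem_dep.1 hj
    apply hne
    by_cases hjv : j = v
    · subst hjv
      simp only [Function.update_self]
    · rw [Function.update_of_ne hjv, Function.update_of_ne hjv, Function.update_of_ne hjy]

theorem clo_ : S_CLO := by
  intro V _ _ q a b e p h
  cases e with
  | inl e =>
    show dep (if site e = p.1 then p else (p.1, fun x => p.2 (actv p.1 a e x))).2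
      (if site e = p.1 then p else (p.1, fun x => p.2 (actv p.1 a e x))).1 = ∅
    by_cases he : site e = p.1
    · rw [if_pos he]
      exact h
    · rw [if_neg he]
      exact part5 p.2 p.1 a e h he
  | inr w =>
    show dep (if w.1 = p.1 then (w.2, fun x => p.2 (Function.update x w.2 b)) else p).2
      (if w.1 = p.1 then (w.2, fun x => p.2 (Function.update x w.2 b)) else p).1 = ∅
    by_cases hw : w.1 = p.1
    · rw [if_pos hw]
      exact (part2 p.2 w.2 b).1
    · rw [if_neg hw]
      exact h

end Pool.Agent.W366.NW.Dr
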